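import Mathlib
import Pool.Agent.Work.MP_b687c6_pr.Crit

set_option autoImplicit false

namespace Pool.Agent.Results.MP_b687c6_pr.CriterionAndComplexity

open MeasureTheory
open Pool.Agent.Work.MP_b687c6_pr

/-- **The Q-matrix problem.** A necessary and sufficient condition for `Q` to be the derivative
matrix of a standard (of an honest) semigroup, and its optimality: the set of Q-matrices is a
complete analytic set, so no Borel condition on the entries is necessary and sufficient, already
for matrices with a single instantaneous state, whose row is `(-∞, 0, 0, ...)`, and in which every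
other state is stable with an integer rate and a single exit. -/
theorem result :
    -- (1) the criterion: `I - Q` is the limit of the inverses of the sections of a good matrix
    (∀ Q : ℕ+ → ℕ+ → EReal, Q ∈ QMat ℕ+ ↔
      ∃ R, GoodR R ∧ InvLimit R fun i j => Q i.succPNat j.succPNat) ∧
    (∀ Q : ℕ+ → ℕ+ → EReal, Q ∈ QMatHonest ℕ+ ↔
      ∃ R, GoodR R ∧ InvLimit R (fun i j => Q i.succPNat j.succPNat) ∧ ∀ i, ∑' j, R i j = 1) ∧
    -- (2) both classes are analytic
    AnalyticSet (QMat ℕ+) ∧ AnalyticSet (QMatHonest ℕ+) ∧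
    -- (3) they are complete: every analytic set is a continuous preimage, via simple matrices
    (∀ A : Set (ℕ → ℕ), AnalyticSet A → ∃ f : (ℕ → ℕ) → (ℕ+ → ℕ+ → EReal),
      Continuous f ∧ (∀ x, Simple (f x)) ∧
        (∀ x, x ∈ A → f x ∈ QMatHonest ℕ+) ∧ (∀ x, x ∉ A → f x ∉ QMat ℕ+)) ∧
    -- (4) no Borel set separates, on simple matrices, the Q-matrices of honest semigroups from the
    -- matrices that are not Q-matrices
    (∀ C : Set (ℕ+ → ℕ+ → EReal), (∀ Q, Simple Q → Q ∈ QMatHonest ℕ+ → Q ∈ C) →
      (∀ Q, Simple Q → Q ∈ C → Q ∈ QMat ℕ+) → ¬ MeasurableSet C) :=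
  ⟨crit_pnat, crit_pnat_honest, analytic_QMat ℕ+, analytic_QMatHonest ℕ+, main_reduction,
    main_not_borel⟩

end Pool.Agent.Results.MP_b687c6_pr.CriterionAndComplexity
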